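import Mathlib

/-!
# The residue field of the completion of `k(X)` at a place, `k` finite (helper68, for the project SX of helper269)
-/

set_option autoImplicit false

open Polynomial IsDedekindDomain IsDedekindDomain.HeightOneSpectrum

namespace Pool.Agent.Q68.SX

section dedekind

variable {R K : Type} [CommRing R] [IsDedekindDomain R] [Field K] [Algebra R K] [IsFractionRing R K]
  (v : HeightOneSpectrum R)

/-- elements of valuation one are units -/
theorem isUnit_iff (a : v.adicCompletionIntegers K) :
    IsUnit a ↔ Valued.v (a : v.adicCompletion K) = (1 : WithZero (Multiplicative ℤ)) :=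
  adicCompletionIntegers.isUnit_iff_valued_eq_one

theorem le_one (a : v.adicCompletionIntegers K) :
    Valued.v (a : v.adicCompletion K) ≤ (1 : WithZero (Multiplicative ℤ)) :=
  (mem_adicCompletionIntegers R K v).1 a.2

theorem residue_eq_zero_iff (a : v.adicCompletionIntegers K) :
    IsLocalRing.residue (v.adicCompletionIntegers K) a = 0 ↔
      Valued.v (a : v.adicCompletion K) < (1 : WithZero (Multiplicative ℤ)) := by
  rw [IsLocalRing.residue_eq_zero_iff, IsLocalRing.mem_maximalIdeal, mem_nonunits_iff, isUnit_iff]
  constructor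
  · intro h
    exact lt_of_le_of_ne (le_one v a) h
  · intro h
    exact h.ne

/-- the map from `R` to the residue field is surjective -/
theorem residue_surj : Function.Surjective
    ((IsLocalRing.residue (v.adicCompletionIntegers K)).comp (algebraMap R (v.adicCompletionIntegers K))) := by
  intro z
  obtain ⟨a, rfl⟩ := IsLocalRing.residue_surjective z
  -- an element of `K` near `a`
  obtain ⟨x, hx⟩ : ∃ x : K, Valued.v ((a : v.adicCompletion K) - algebraMap K (v.adicCompletion K) x) <
      (1 : WithZero (Multiplicative ℤ)) := by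
    have hopen : IsOpen {y : v.adicCompletion K |
        Valued.v ((a : v.adicCompletion K) - y) < (1 : WithZero (Multiplicative ℤ))} := by
      have h1 : IsOpen {y : v.adicCompletion K | Valued.v y < (1 : WithZero (Multiplicative ℤ))} := by
        have h0 := Valued.isOpen_ball (v.adicCompletion K) (1 : MonoidWithZeroHom.ValueGroup₀ (.ofClass
          (Valued.v (R := v.adicCompletion K))))
        simpa only [Valuation.restrict_lt_one_iff] using h0
      have h2 : Continuous fun y : v.adicCompletion K => (a : v.adicCompletion K) - y := by fun_prop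
      exact h1.preimage h2
    obtain ⟨x, hx⟩ := (denseRange_algebraMap K v).exists_mem_open hopen ⟨a, by simp⟩
    exact ⟨x, hx⟩
  have hx1 : v.valuation K x ≤ 1 := by
    rw [← valuedAdicCompletion_eq_valuation' v x]
    have h3 : (x : v.adicCompletion K) = (a : v.adicCompletion K) -
      ((a : v.adicCompletion K) - algebraMap K (v.adicCompletion K) x) := by
      rw [sub_sub_cancel]
      rfl
    rw [h3]
    exact (Valuation.map_sub _ _ _).trans (max_le (le_one v a) hx.le)
  obtain ⟨r, hr⟩ := exists_valuation_sub_lt_of_integer v hx1 1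
  refine ⟨r, ?_⟩
  rw [RingHom.comp_apply, ← sub_eq_zero, ← map_sub, residue_eq_zero_iff]
  have h4 : ((algebraMap R (v.adicCompletionIntegers K) r - a : v.adicCompletionIntegers K) :
      v.adicCompletion K) = algebraMap K (v.adicCompletion K) (algebraMap R K r - x) -
      ((a : v.adicCompletion K) - algebraMap K (v.adicCompletion K) x) := by
    rw [map_sub]
    have : ((algebraMap R (v.adicCompletionIntegers K) r - a : v.adicCompletionIntegers K) :
      v.adicCompletion K) = algebraMap K (v.adicCompletion K) (algebraMap R K r) - a := rfl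
    rw [this]
    ring
  rw [h4]
  refine lt_of_le_of_lt (Valuation.map_sub _ _ _) (max_lt ?_ hx)
  have h5 := valuedAdicCompletion_eq_valuation' v (algebraMap R K r - x)
  rw [show algebraMap K (v.adicCompletion K) (algebraMap R K r - x) =
    ((algebraMap R K r - x : K) : v.adicCompletion K) from rfl, h5]
  simpa using hr

end dedekind

section poly

variable {k K : Type} [Field k] [Finite k] [Field K] [Algebra k[X] K] [IsFractionRing k[X] K]
  (v : HeightOneSpectrum k[X])

omit [Finite k] in
theorem finite_quot [Finite k] (I : Ideal k[X]) (hI : I ≠ ⊥) : Finite (k[X] ⧸ I) := by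
  obtain ⟨g, hg⟩ := (IsPrincipalIdealRing.principal I).principal
  have hg0 : g ≠ 0 := by
    rintro rfl
    apply hI
    rw [hg]
    simp
  obtain ⟨f, hf, hfm⟩ : ∃ f : k[X], I = Ideal.span {f} ∧ f.Monic := by
    refine ⟨g * C g.leadingCoeff⁻¹, ?_, monic_mul_leadingCoeff_inv hg0⟩
    rw [hg, Ideal.submodule_span_eq, Ideal.span_singleton_mul_right_unit]
    exact isUnit_C.2 (IsUnit.mk0 _ (inv_ne_zero (leadingCoeff_ne_zero.2 hg0)))
  subst hf
  have h1 : Module.Finite k (k[X] ⧸ Ideal.span {f}) := hfm.finite_quotient
  exact Module.finite_of_finite k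

theorem finite_residue : Finite (IsLocalRing.ResidueField (v.adicCompletionIntegers K)) := by
  have := finite_quot v.asIdeal v.ne_bot
  obtain ⟨φ, hφ⟩ : ∃ φ : k[X] →+* IsLocalRing.ResidueField (v.adicCompletionIntegers K),
    φ = (IsLocalRing.residue (v.adicCompletionIntegers K)).comp
      (algebraMap k[X] (v.adicCompletionIntegers K)) := ⟨_, rfl⟩
  have h1 : ∀ a ∈ v.asIdeal, φ a = 0 := by
    intro a ha
    rw [hφ, RingHom.comp_apply, residue_eq_zero_iff]
    have h2 := valuedAdicCompletion_eq_valuation' v (algebraMap k[X] K a)
    have h3 : ((algebraMap k[X] (v.adicCompletionIntegers K) a : v.adicCompletionIntegers K) :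
      v.adicCompletion K) = ((algebraMap k[X] K a : K) : v.adicCompletion K) := rfl
    rw [h3, h2, valuation_lt_one_iff_mem]
    exact ha
  have h2 : Function.Surjective (Ideal.Quotient.lift v.asIdeal φ h1) := by
    intro z
    obtain ⟨r, hr⟩ := residue_surj (K := K) v z
    refine ⟨Ideal.Quotient.mk v.asIdeal r, ?_⟩
    rw [Ideal.Quotient.lift_mk, hφ]
    exact hr
  exact Finite.of_surjective _ h2

/-- the constants -/
noncomputable def cst : k →+* v.adicCompletionIntegers K :=
  (algebraMap k[X] (v.adicCompletionIntegers K)).comp C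

theorem isUnit_two (h : ringChar k ≠ 2) : IsUnit (2 : v.adicCompletionIntegers K) := by
  have h1 : IsUnit (2 : k) := IsUnit.mk0 _ (Ring.two_ne_zero h)
  have h2 := h1.map (cst (K := K) v)
  rwa [map_ofNat] at h2

theorem ringChar_residue (h : ringChar k ≠ 2) :
    ringChar (IsLocalRing.ResidueField (v.adicCompletionIntegers K)) ≠ 2 := by
  intro h2
  have h3 : ((2 : ℕ) : IsLocalRing.ResidueField (v.adicCompletionIntegers K)) = 0 := by
    rw [ringChar.spec, h2]
  have h4 := (isUnit_two (K := K) v h).map (IsLocalRing.residue (v.adicCompletionIntegers K))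
  rw [map_ofNat] at h4
  exact h4.ne_zero (by exact_mod_cast h3)

theorem isSquare_neg_one (h : IsSquare (-1 : k)) :
    IsSquare (-1 : IsLocalRing.ResidueField (v.adicCompletionIntegers K)) := by
  have h1 := h.map ((IsLocalRing.residue (v.adicCompletionIntegers K)).comp (cst (K := K) v))
  rwa [map_neg, map_one] at h1

end poly

end Pool.Agent.Q68.SX
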