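import Pool.Agent.Q68.SX.ResA
import Pool.Agent.Q68.SX.ResB

/-! Both files `Res.lean` of helper68: `ResA` for the project SX of helper161, `ResB` for the project SX of
helper269. -/
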