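import Pool.Agent.Q269.SX.St
import Pool.Agent.Q68.SX.Res

/-!
# Project SX (helper269), JOB SX-LOC: local points with prescribed square classes (helper68)
-/

set_option autoImplicit false

open Polynomial IsDedekindDomain IsDedekindDomain.HeightOneSpectrum

namespace Pool.Agent.Q68.SX

open Pool.Agent.Q269.SX

theorem t_LOC (h1 : S_LFF) (h2 : S_HEN) : S_LOC := by
  intro k K _ _ _ _ _ hk hsq n hn v δ e y hδ he hy hey
  obtain ⟨hen1, hen2⟩ := h2 k[X] K v (isUnit_two v hk)
  have hO : Finite (IsLocalRing.ResidueField (v.adicCompletionIntegers K)) := finite_residue v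
  have hOF : Fintype (IsLocalRing.ResidueField (v.adicCompletionIntegers K)) := Fintype.ofFinite _
  -- the elements of the ring of integers
  obtain ⟨δ', hδ'⟩ : ∃ δ' : v.adicCompletionIntegers K, (δ' : v.adicCompletion K) = δ :=
    ⟨⟨δ, (mem_adicCompletionIntegers k[X] K v).2 hδ.le⟩, rfl⟩
  obtain ⟨e', he'⟩ : ∃ e' : Fin n → v.adicCompletionIntegers K, ∀ i, (e' i : v.adicCompletion K) = e i :=
    ⟨fun i => ⟨e i, (mem_adicCompletionIntegers k[X] K v).2 (he i)⟩, fun _ => rfl⟩
  obtain ⟨y', hy'⟩ : ∃ y' : Fin n → v.adicCompletionIntegers K, ∀ i, (y' i : v.adicCompletion K) = y i :=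
    ⟨fun i => ⟨y i, (mem_adicCompletionIntegers k[X] K v).2 (hy i).le⟩, fun _ => rfl⟩
  obtain ⟨ρ, hρ⟩ : ∃ ρ : v.adicCompletionIntegers K →+* IsLocalRing.ResidueField (v.adicCompletionIntegers K),
    ρ = IsLocalRing.residue (v.adicCompletionIntegers K) := ⟨_, rfl⟩
  have hρs : Function.Surjective ρ := by rw [hρ]; exact IsLocalRing.residue_surjective
  have hρ0 : ∀ a : v.adicCompletionIntegers K, ρ a = 0 ↔
      Valued.v (a : v.adicCompletion K) < (1 : WithZero (Multiplicative ℤ)) := by
    intro a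
    rw [hρ]
    exact residue_eq_zero_iff v a
  have hρu : ∀ a : v.adicCompletionIntegers K, IsUnit a ↔ ρ a ≠ 0 := by
    intro a
    rw [isUnit_iff, Ne, hρ0]
    constructor
    · intro h h3
      exact h3.ne h
    · intro h
      exact le_antisymm (le_one v a) (not_lt.1 h)
  rw [← hρ] at hen1 hen2
  have hyu : ∀ i, IsUnit (y' i) := fun i => (isUnit_iff v (y' i)).2 (by rw [hy' i]; exact hy i)
  obtain ⟨u, r, s, hum, hui, hue, hs, hud, hus⟩ := h1 (IsLocalRing.ResidueField (v.adicCompletionIntegers K)) n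
    (ringChar_residue v hk) (isSquare_neg_one v hsq) hn (fun i => ρ (e' i)) (fun i => ρ (y' i)) (ρ δ')
    ((hρu δ').1 ((isUnit_iff v δ').2 (by rw [hδ']; exact hδ)))
    (fun i => (hρu (y' i)).1 (hyu i)) (by
      intro i j hij
      have h3 : Valued.v (e i - e j) < (1 : WithZero (Multiplicative ℤ)) := by
        have h4 := (hρ0 (e' i - e' j)).1 (by rw [map_sub, sub_eq_zero]; exact hij)
        have h5 : ((e' i - e' j : v.adicCompletionIntegers K) : v.adicCompletion K) = e i - e j := by
          rw [← he' i, ← he' j]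
          rfl
        rwa [h5] at h4
      obtain ⟨z, hz⟩ := hey i j h3
      have hz1 : Valued.v z ≤ (1 : WithZero (Multiplicative ℤ)) := by
        by_contra hcon
        have h6 : Valued.v (y i * y j) = Valued.v z * Valued.v z := by rw [hz, map_mul]
        rw [map_mul, hy i, hy j, one_mul] at h6
        have h7 : (1 : WithZero (Multiplicative ℤ)) < Valued.v z * Valued.v z :=
          one_lt_mul'' (not_le.1 hcon) (not_le.1 hcon)
        exact h7.ne h6
      obtain ⟨z', hz'⟩ : ∃ z' : v.adicCompletionIntegers K, (z' : v.adicCompletion K) = z :=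
        ⟨⟨z, (mem_adicCompletionIntegers k[X] K v).2 hz1⟩, rfl⟩
      refine ⟨ρ z', ?_⟩
      rw [← map_mul, ← map_mul]
      congr 1
      apply Subtype.ext
      show (y' i : v.adicCompletion K) * (y' j : v.adicCompletion K) = (z' : v.adicCompletion K) * z'
      rw [hy' i, hy' j, hz', hz])
  -- lifts
  obtain ⟨U, hU, -, hUm⟩ := Polynomial.lifts_and_natDegree_eq_and_monic (f := ρ) (p := u) (by
    rw [Polynomial.mem_lifts]
    exact Polynomial.map_surjective ρ hρs u) hum
  obtain ⟨r', hr'⟩ := Polynomial.map_surjective ρ hρs r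
  obtain ⟨s', hs'⟩ := hρs s
  obtain ⟨f, hf⟩ : ∃ f : (v.adicCompletionIntegers K)[X], f = C δ' * ∏ i, (X - C (e' i)) := ⟨_, rfl⟩
  have hfm : f.map ρ = C (ρ δ') * ∏ i, (X - C (ρ (e' i))) := by
    rw [hf, Polynomial.map_mul, Polynomial.map_C, Polynomial.map_prod]
    congr 1
    refine Finset.prod_congr rfl fun i _ => ?_
    rw [Polynomial.map_sub, Polynomial.map_X, Polynomial.map_C]
  obtain ⟨R', hR'⟩ := hen1 U f r' hUm (by rw [hU]; exact hui) (by
    rw [hU, hfm]
    intro hd
    rcases hui.prime.dvd_or_dvd hd with h3 | h3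
    · have h4 : IsUnit (C (ρ δ')) := isUnit_C.2 (IsUnit.mk0 _
        ((hρu δ').1 ((isUnit_iff v δ').2 (by rw [hδ']; exact hδ))))
      exact hui.not_isUnit (isUnit_of_dvd_unit h3 h4)
    · obtain ⟨i, -, h4⟩ := (hui.prime.dvd_finsetProd_iff _).1 h3
      have h5 : X - C (ρ (e' i)) ∣ u := (hui.associated_of_dvd (irreducible_X_sub_C _) h4).symm.dvd
      rw [dvd_iff_isRoot] at h5
      exact hue i h5) (by
    rw [hU, Polynomial.map_sub, hfm, Polynomial.map_pow, hr']
    exact hud)
  -- the values at the branch points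
  obtain ⟨c, hc⟩ : ∃ c : v.adicCompletionIntegers K →+* v.adicCompletion K,
    c = (v.adicCompletionIntegers K).subtype := ⟨_, rfl⟩
  have hcv : ∀ a : v.adicCompletionIntegers K, c a = (a : v.adicCompletion K) := by
    intro a
    rw [hc]
    rfl
  have hcne : ∀ a : v.adicCompletionIntegers K, IsUnit a → c a ≠ 0 := fun a ha => (ha.map c).ne_zero
  have hUe : ∀ i, (U.map c).eval (e i) = c (U.eval (e' i)) := by
    intro i
    rw [← he' i, ← hcv, Polynomial.eval_map, Polynomial.eval₂_at_apply]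
  have hUr : ∀ i, ρ (U.eval (e' i)) = u.eval (ρ (e' i)) := by
    intro i
    rw [← hU, Polynomial.eval_map, Polynomial.eval₂_at_apply]
  have hUu : ∀ i, IsUnit (U.eval (e' i)) := by
    intro i
    rw [hρu, hUr]
    exact hue i
  have hsu : IsUnit s' := by
    rw [hρu, hs']
    exact hs
  refine ⟨U.map c, R'.map c, c s', hUm.map c, ?_, hcne s' hsu, fun i => ⟨?_, ?_⟩⟩
  · have h3 := Polynomial.map_dvd c hR'
    rw [Polynomial.map_sub, Polynomial.map_pow] at h3
    have h4 : f.map c = C δ * ∏ i, (X - C (e i)) := by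
      rw [hf, Polynomial.map_mul, Polynomial.map_C, Polynomial.map_prod, hcv, hδ']
      congr 1
      refine Finset.prod_congr rfl fun i _ => ?_
      rw [Polynomial.map_sub, Polynomial.map_X, Polynomial.map_C, hcv, he' i]
    rwa [h4] at h3
  · rw [hUe]
    exact hcne _ (hUu i)
  · have h3 : IsSquare (s' * y' i * U.eval (e' i)) := by
      refine hen2 _ ((hsu.mul (hyu i)).mul (hUu i)) ?_
      rw [map_mul, map_mul, hs', hUr]
      exact hus i
    have h4 := h3.map c
    rw [map_mul, map_mul] at h4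
    rw [hUe]
    rwa [hcv (y' i), hy' i] at h4

end Pool.Agent.Q68.SX
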