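import Pool.Agent.Q161.SX.Stm

/-! Project SX: elements of the residue field fixed by powers of Frobenius (RES). -/

set_option autoImplicit false

namespace Pool.Agent.Q68.SX

open Polynomial NumberField IsDedekindDomain Finset
open Pool.Agent.W623.SecC (IsU)
open Pool.Agent.Q51.EL Pool.Agent.Q161.SX

section val

variable {A : Type} [Field A] [Algebra ℚ A] {V : ValuationSubring A} {l : ℕ} {φ : A ≃ₐ[ℚ] A}

/-- the residue map -/
noncomputable abbrev rs (V : ValuationSubring A) : V →+* IsLocalRing.ResidueField V :=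
  IsLocalRing.residue V

omit [Algebra ℚ A] in
lemma rs_eq {x y : V} : rs V x = rs V y ↔ (x : A) - y ∈ V.nonunits := by
  have h1 : (x : A) - y = ((x - y : V) : A) := by push_cast; rfl
  rw [h1, ValuationSubring.coe_mem_nonunits_iff, ← sub_eq_zero, ← map_sub,
    IsLocalRing.residue_eq_zero_iff]

omit [Algebra ℚ A] in
lemma not_unit {x : A} (hx : IsU V x) : x ∉ V.nonunits := by
  intro h
  obtain ⟨h0, h1, h2⟩ := hx
  rw [ValuationSubring.mem_nonunits_iff_exists_mem_maximalIdeal] at h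
  obtain ⟨h3, h4⟩ := h
  apply (IsLocalRing.mem_maximalIdeal _).1 h4
  exact IsUnit.of_mul_eq_one ⟨x⁻¹, h2⟩ (Subtype.ext (mul_inv_cancel₀ h0))

lemma frob_pow (h : Frb V l φ) (m : ℕ) (x : V) :
    ∃ hm : (φ ^ m) (x : A) ∈ V, rs V ⟨(φ ^ m) (x : A), hm⟩ = rs V x ^ (l ^ m) := by
  induction m with
  | zero => exact ⟨by simp, by simp⟩
  | succ m ih =>
    obtain ⟨hm, e⟩ := ih
    have h1 : (φ ^ (m + 1)) (x : A) = φ ((φ ^ m) (x : A)) := by
      rw [pow_succ']
      rfl
    have h2 : φ ((φ ^ m) (x : A)) ∈ V := (h.1 _).2 hm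
    refine ⟨h1 ▸ h2, ?_⟩
    have h3 : rs V ⟨φ ((φ ^ m) (x : A)), h2⟩ = rs V (⟨(φ ^ m) (x : A), hm⟩ ^ l) := by
      rw [rs_eq]
      push_cast
      exact h.2 _ hm
    have h4 : (⟨(φ ^ (m + 1)) (x : A), h1 ▸ h2⟩ : V) = ⟨φ ((φ ^ m) (x : A)), h2⟩ :=
      Subtype.ext h1
    rw [h4, h3, map_pow, e, ← pow_mul, ← pow_succ]

/-- integral elements lie in the valuation ring -/
lemma int_mem {x : A} (hx : IsIntegral ℤ x) : x ∈ V := by
  have h1 : IsIntegral V x := hx.tower_top
  obtain ⟨y, hy⟩ := (IsIntegrallyClosed.isIntegral_iff (R := V) (K := A)).1 h1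
  rw [← hy]
  exact y.2

end val

/-- an element of a field `κ` which satisfies `z ^ q = z` lies in a subfield with `q` elements -/
lemma mem_of_pow {F κ : Type*} [Field F] [Fintype F] [Field κ] [Algebra F κ] {z : κ}
    (hz : z ^ Fintype.card F = z) : ∃ a : F, algebraMap F κ a = z := by
  classical
  by_contra hc
  push Not at hc
  have hq : 1 < Fintype.card F := Fintype.one_lt_card
  have hp : (X ^ Fintype.card F - X : κ[X]) ≠ 0 := FiniteField.X_pow_card_sub_X_ne_zero κ hq
  have hdeg : (X ^ Fintype.card F - X : κ[X]).natDegree = Fintype.card F :=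
    FiniteField.X_pow_card_sub_X_natDegree_eq κ hq
  obtain ⟨T, hT⟩ : ∃ T : Finset κ, T = insert z (Finset.univ.image (algebraMap F κ)) := ⟨_, rfl⟩
  have hcard : T.card = Fintype.card F + 1 := by
    rw [hT, Finset.card_insert_of_notMem, Finset.card_image_of_injective _
      (algebraMap F κ).injective, Finset.card_univ]
    intro h
    obtain ⟨a, -, ha⟩ := Finset.mem_image.1 h
    exact hc a ha
  have hsub : T ⊆ (X ^ Fintype.card F - X : κ[X]).roots.toFinset := by
    intro x hx
    rw [Multiset.mem_toFinset, Polynomial.mem_roots hp, Polynomial.IsRoot.def, eval_sub, eval_pow,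
      eval_X, sub_eq_zero]
    rw [hT, Finset.mem_insert] at hx
    rcases hx with rfl | hx
    · exact hz
    · obtain ⟨a, -, rfl⟩ := Finset.mem_image.1 hx
      rw [← map_pow, FiniteField.pow_card]
  have h1 := Finset.card_le_card hsub
  have h2 := Multiset.toFinset_card_le (X ^ Fintype.card F - X : κ[X]).roots
  have h3 := Polynomial.card_roots' (X ^ Fintype.card F - X : κ[X])
  omega

theorem res (hd : S_DST) : S_RES := by
  intro f L _ _ θ hS
  have hsep : (f.map (Int.castRingHom ℚ)).Separable := hS.irr.separable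
  obtain ⟨B, hB, hB2⟩ := hd f hsep
  refine ⟨B, hB, ?_⟩
  intro A _ _ _ l hl hlB V φ hlV hF j z hz hfix
  obtain ⟨hlead, hroots, hdist⟩ := hB2 A l hl hlB V hlV
  have hfl : Fact l.Prime := ⟨hl⟩
  obtain ⟨κ, hκ⟩ : ∃ κ : Type, κ = IsLocalRing.ResidueField V := ⟨_, rfl⟩
  -- the root
  have hθ : aeval (j θ) f = 0 := by
    have h1 : aeval (j θ) f = j (aeval θ f) := by
      rw [aeval_def, aeval_def]
      change _ = (j : L →+* A) _
      rw [hom_eval₂]
      congr 1
      exact RingHom.ext_int _ _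
    rw [h1, hS.root, map_zero]
  have hθV : j θ ∈ V := hroots ⟨j θ, hθ⟩
  -- characteristic
  have hl0 : ((l : ℕ) : IsLocalRing.ResidueField V) = 0 := by
    have h1 : ((l : ℕ) : IsLocalRing.ResidueField V) = rs V ((l : ℕ) : V) := (map_natCast _ _).symm
    rw [h1, ← map_zero (rs V), rs_eq]
    push_cast
    rw [sub_zero]
    exact hlV
  have : CharP (IsLocalRing.ResidueField V) l := (CharP.charP_iff_prime_eq_zero hl).2 hl0
  letI : Algebra (ZMod l) (IsLocalRing.ResidueField V) := ZMod.algebra _ l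
  obtain ⟨t, ht⟩ : ∃ t, t = rs V ⟨j θ, hθV⟩ := ⟨_, rfl⟩
  obtain ⟨y, hy⟩ : ∃ y, y = rs V ⟨z, hz⟩ := ⟨_, rfl⟩
  -- the leading coefficient
  have ha0 : ((f.leadingCoeff : ℤ) : IsLocalRing.ResidueField V) ≠ 0 := by
    have h1 : ((f.leadingCoeff : ℤ) : IsLocalRing.ResidueField V) =
        rs V ((f.leadingCoeff : ℤ) : V) := (map_intCast _ _).symm
    rw [h1, ← map_zero (rs V), Ne, rs_eq]
    push_cast
    rw [sub_zero]
    exact not_unit hlead
  have haz : ((f.leadingCoeff : ℤ) : ZMod l) ≠ 0 := by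
    intro h
    apply ha0
    have h1 : ((f.leadingCoeff : ℤ) : IsLocalRing.ResidueField V) =
        algebraMap (ZMod l) (IsLocalRing.ResidueField V) ((f.leadingCoeff : ℤ) : ZMod l) :=
      (map_intCast _ _).symm
    rw [h1, h, map_zero]
  -- `t` is integral over the prime field
  have htr : aeval t (f.map (Int.castRingHom (ZMod l))) = 0 := by
    have h1 : aeval (⟨j θ, hθV⟩ : V) f = 0 := by
      apply Subtype.ext
      have h2 : ((aeval (⟨j θ, hθV⟩ : V) f : V) : A) = aeval (j θ) f := by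
        rw [aeval_def, aeval_def]
        change V.subtype _ = _
        rw [hom_eval₂]
        congr 1
      rw [h2, hθ]
      rfl
    have h3 : aeval t (f.map (Int.castRingHom (ZMod l))) = rs V (aeval (⟨j θ, hθV⟩ : V) f) := by
      rw [aeval_def, aeval_def, hom_eval₂, eval₂_map, ht]
      congr 1
      exact RingHom.ext_int _ _
    rw [h3, h1, map_zero]
  have hf0 : f.map (Int.castRingHom (ZMod l)) ≠ 0 := by
    intro h
    apply haz
    have h1 : (f.map (Int.castRingHom (ZMod l))).coeff f.natDegree = 0 := by rw [h, coeff_zero]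
    rwa [coeff_map] at h1
  have htint : IsIntegral (ZMod l) t := by
    have : IsAlgebraic (ZMod l) t := ⟨_, hf0, htr⟩
    exact this.isIntegral
  -- the finite field generated by `t`
  obtain ⟨F, hFd⟩ : ∃ F : IntermediateField (ZMod l) (IsLocalRing.ResidueField V),
    F = IntermediateField.adjoin (ZMod l) {t} := ⟨_, rfl⟩
  have : FiniteDimensional (ZMod l) F := by
    rw [hFd]
    exact IntermediateField.adjoin.finiteDimensional htint
  have : Finite F := Module.finite_of_finite (ZMod l)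
  letI : Fintype F := Fintype.ofFinite F
  have hcard : Fintype.card F = l ^ Module.finrank (ZMod l) F := by
    rw [Module.card_eq_pow_finrank (K := ZMod l), ZMod.card]
  obtain ⟨d, hdd⟩ : ∃ d, d = Module.finrank (ZMod l) F := ⟨_, rfl⟩
  rw [← hdd] at hcard
  have htF : t ∈ F := by
    rw [hFd]
    exact IntermediateField.mem_adjoin_simple_self _ _
  have htp : t ^ (l ^ d) = t := by
    have h1 : (⟨t, htF⟩ : F) ^ Fintype.card F = ⟨t, htF⟩ := FiniteField.pow_card _
    rw [hcard] at h1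
    have h2 := congrArg (fun w : F => (w : IsLocalRing.ResidueField V)) h1
    simpa using h2
  -- Frobenius fixes the zero
  have hfixθ : (φ ^ d) (j θ) = j θ := by
    obtain ⟨hm, e⟩ := frob_pow hF d ⟨j θ, hθV⟩
    by_contra hne
    have hroot : aeval ((φ ^ d) (j θ)) f = 0 := by rw [aeval_aut, hθ, map_zero]
    have h1 := hdist ⟨(φ ^ d) (j θ), hroot⟩ ⟨j θ, hθ⟩ (fun h => hne (congrArg Subtype.val h))
    apply not_unit h1
    rw [← ht, htp, ht, rs_eq] at e
    exact e
  have hzfix := hfix d hfixθ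
  have hyp : y ^ (l ^ d) = y := by
    obtain ⟨hm, e⟩ := frob_pow hF d ⟨z, hz⟩
    rw [hy, ← e]
    congr 1
    exact Subtype.ext hzfix
  rw [← hcard] at hyp
  obtain ⟨a, ha⟩ := mem_of_pow (F := F) hyp
  have hyF : y ∈ F := by rw [← ha]; exact a.2
  -- a polynomial in `t`
  have hyadj : y ∈ Algebra.adjoin (ZMod l) {t} := by
    rw [← IntermediateField.adjoin_simple_toSubalgebra_of_isAlgebraic htint.isAlgebraic,
      ← hFd]
    exact hyF
  rw [Algebra.adjoin_singleton_eq_range_aeval] at hyadj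
  obtain ⟨P, hP⟩ := hyadj
  -- the image of the integers of `L`
  obtain ⟨S, hSd⟩ : ∃ S : Set (IsLocalRing.ResidueField V), S = {x | ∃ (g : 𝓞 L)
    (h : j (g : L) ∈ V), rs V ⟨j (g : L), h⟩ = x} := ⟨_, rfl⟩
  have hjV : ∀ g : 𝓞 L, j (g : L) ∈ V := fun g => by
    apply int_mem
    have := (RingOfIntegers.isIntegral_coe g).map (j.restrictScalars ℤ)
    exact this
  have hmem : ∀ g : 𝓞 L, rs V ⟨j (g : L), hjV g⟩ ∈ S := fun g => by
    rw [hSd]
    exact ⟨g, hjV g, rfl⟩
  have hadd : ∀ x ∈ S, ∀ x' ∈ S, x + x' ∈ S := by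
    intro x hx x' hx'
    rw [hSd] at hx hx'
    obtain ⟨g, h, rfl⟩ := hx
    obtain ⟨g', h', rfl⟩ := hx'
    rw [← map_add]
    have : (⟨j (g : L), h⟩ + ⟨j (g' : L), h'⟩ : V) = ⟨j ((g + g' : 𝓞 L) : L), hjV _⟩ := by
      apply Subtype.ext
      push_cast
      rw [map_add]
    rw [this]
    exact hmem _
  have hmul : ∀ x ∈ S, ∀ x' ∈ S, x * x' ∈ S := by
    intro x hx x' hx'
    rw [hSd] at hx hx'
    obtain ⟨g, h, rfl⟩ := hx
    obtain ⟨g', h', rfl⟩ := hx'
    rw [← map_mul]
    have : (⟨j (g : L), h⟩ * ⟨j (g' : L), h'⟩ : V) = ⟨j ((g * g' : 𝓞 L) : L), hjV _⟩ := by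
      apply Subtype.ext
      push_cast
      rw [map_mul]
    rw [this]
    exact hmem _
  have hint : ∀ n : ℤ, (n : IsLocalRing.ResidueField V) ∈ S := by
    intro n
    have h1 := hmem (n : 𝓞 L)
    have h2 : (⟨j (((n : 𝓞 L) : 𝓞 L) : L), hjV _⟩ : V) = (n : V) := by
      apply Subtype.ext
      have h3 : ((n : 𝓞 L) : L) = (n : L) := map_intCast (algebraMap (𝓞 L) L) n
      push_cast
      rw [h3, map_intCast]
    rw [h2, map_intCast] at h1
    exact h1
  -- `t` is in the image
  have htS : t ∈ S := by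
    have hai : IsIntegral ℤ (f.leadingCoeff • θ) := isIntegral_leadingCoeff_smul f θ hS.root
    obtain ⟨g, hg⟩ : ∃ g : 𝓞 L, (g : L) = f.leadingCoeff • θ := ⟨⟨_, hai⟩, rfl⟩
    obtain ⟨b, hb⟩ : ∃ b : ℤ, (b : ZMod l) * ((f.leadingCoeff : ℤ) : ZMod l) = 1 := by
      obtain ⟨b, hb⟩ := ZMod.intCast_surjective (((f.leadingCoeff : ℤ) : ZMod l)⁻¹)
      exact ⟨b, by rw [hb, inv_mul_cancel₀ haz]⟩
    have hb' : (b : IsLocalRing.ResidueField V) * (f.leadingCoeff : ℤ) = 1 := by
      have h1 := congrArg (algebraMap (ZMod l) (IsLocalRing.ResidueField V)) hb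
      rwa [map_mul, map_intCast, map_intCast, map_one] at h1
    have h1 := hmul _ (hint b) _ (hmem g)
    have h2 : (⟨j (g : L), hjV g⟩ : V) = (f.leadingCoeff : V) * ⟨j θ, hθV⟩ := by
      apply Subtype.ext
      push_cast
      rw [hg, zsmul_eq_mul, map_mul, map_intCast]
    rw [h2, map_mul, map_intCast, ← mul_assoc, hb', one_mul, ← ht] at h1
    exact h1
  have hpow : ∀ n : ℕ, t ^ n ∈ S := by
    intro n
    induction n with
    | zero => simpa using hint 1
    | succ n ih => rw [pow_succ]; exact hmul _ ih _ htS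
  have hpoly : ∀ P : (ZMod l)[X], aeval t P ∈ S := by
    intro P
    induction P using Polynomial.induction_on' with
    | add p q hp hq => rw [map_add]; exact hadd _ hp _ hq
    | monomial n a =>
      rw [aeval_monomial]
      refine hmul _ ?_ _ (hpow n)
      obtain ⟨b, rfl⟩ := ZMod.intCast_surjective a
      rw [map_intCast]
      exact hint b
  have hyS := hpoly P
  have hP' : aeval t P = y := hP
  rw [hP', hSd] at hyS
  obtain ⟨g, h, hg⟩ := hyS
  refine ⟨g, ?_⟩
  rw [hy, rs_eq] at hg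
  exact hg

end Pool.Agent.Q68.SX
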